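import Pool.Agent.Helper52_ABB.E6Defs
import Pool.Agent.Helper49_ABB.Walk
import Pool.Agent.Helper70_ABA.Trip

/-! # The legs of a minimal hexagon (module SIDE, MP_d857f1_al, part B) -/

set_option autoImplicit false

namespace Pool.Agent.ABA.B.H63

open Knd Pool.Agent.ABA Pool.Agent.ABA.B Pool.Agent.ABA.B.TG Pool.Agent.ABA.B.H17
  Pool.Agent.ABA.B.H89 Pool.Agent.ABA.B.H49 Pool.Agent.ABA.B.H52

/-! ## letters of the word -/

section cfg

variable {V E : Type} (C : Cfg V E)

theorem wd_add (i a b : ℕ) : C.wd i (a + b) = C.wd i a ++ C.wd (i + a) b := by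
  induction a generalizing i with
  | zero => simp [Cfg.wd]
  | succ a ih =>
    rw [show a + 1 + b = (a + b) + 1 by ring, Cfg.wd, Cfg.wd, ih (i + 1)]
    simp [show i + 1 + a = i + (a + 1) by ring]

theorem wd_len (i a : ℕ) : C.o i + (C.wd i a).length = C.o (i + a) := by
  induction a generalizing i with
  | zero => simp [Cfg.wd]
  | succ a ih =>
    have h := ih (i + 1)
    rw [Cfg.wd, show i + (a + 1) = i + 1 + a by ring, ← h, Cfg.o]
    simp only [List.length_append]
    ring

theorem wd_len0 (a : ℕ) : (C.wd 0 a).length = C.o a := by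
  have h := wd_len C 0 a
  rw [Cfg.o] at h
  simpa using h

variable (hd : ∀ i, 1 ≤ (C.d i).length)
include hd

theorem le_o (i : ℕ) : i ≤ C.o i := by
  induction i with
  | zero => simp
  | succ i ih =>
    have := hd i
    rw [Cfg.o]; omega

variable [Inhabited E]

theorem lt_leg (i j : ℕ) (hj : j < (C.d i).length) : C.lt (C.m i + j) = (C.d i)[j] := by
  have h1 := le_o C hd i
  obtain ⟨k, hk⟩ : ∃ k, C.m i + j + 1 = i + (k + 1) := ⟨C.m i + j - i, by
    have : C.o i ≤ C.m i := Nat.le_add_right _ _
    omega⟩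
  rw [Cfg.lt, hk, wd_add, Cfg.wd, Nat.zero_add]
  have h2 : C.m i + j = (C.wd 0 i).length + ((C.s i).length + j) := by
    rw [wd_len0, Cfg.m]; ring
  rw [h2, List.getD_append_right _ _ _ _ (by omega), Nat.add_sub_cancel_left,
    List.getD_append_right _ _ _ _ (by omega), Nat.add_sub_cancel_left,
    List.getD_append _ _ _ _ hj, List.getD_eq_getElem _ _ hj]

theorem lt_side (i j : ℕ) (hj : j < (C.s i).length) : C.lt (C.o i + j) = (C.s i)[j] := by
  have h1 := le_o C hd i
  obtain ⟨k, hk⟩ : ∃ k, C.o i + j + 1 = i + (k + 1) := ⟨C.o i + j - i, by omega⟩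
  rw [Cfg.lt, hk, wd_add, Cfg.wd, Nat.zero_add]
  have h2 : C.o i + j = (C.wd 0 i).length + j := by
    rw [wd_len0]
  rw [h2, List.getD_append_right _ _ _ _ (by omega), Nat.add_sub_cancel_left,
    List.getD_append _ _ _ _ hj, List.getD_eq_getElem _ _ hj]

end cfg

section

variable {G : Type} [Group G] {A B : Subgroup G} {g : G}
variable {hg : ¬ IsABA A B g} {hgeo : Geo A B} {hι : Function.Injective (Pι A B g)}

theorem o_succ {V E : Type} (C : Cfg V E) (t : ℕ) : C.o (t + 1) = C.m t + (C.d t).length := rfl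

/-- a walk with four letters at an inner vertex of a leg excludes a walk with three letters -/
theorem straight {c : ℕ → Car A B g} {C : Cfg (XV A B g) (XE A B g)} {b e : ℕ}
    {W : ℕ → List (XE A B g)} (hA : ∀ x ∈ A, ∀ y ∈ A, x * y = y * x)
    (hP : H52.Pc hg hgeo hι c C b e W) {j : ℕ} (h1 : b ≤ j) (h2 : j + 1 < e)
    (h4 : (W (j + 1)).length = 4) (n : XE A B g)
    (h5 : (XX hg hgeo hι).Cor (xinv (C.lt j)) n) (h6 : (XX hg hgeo hι).Cor n (C.lt (j + 1))) :
    False := by
  obtain ⟨f1, f2, l, r, -, -, hw, -⟩ := hP.edg j h1 (by omega)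
  obtain ⟨f1', f2', l', r', -, hw', -, -⟩ := hP.edg (j + 1) (by omega) h2
  have hc := hP.chain (j + 1) (by omega) h2.le
  have hl : l'.length = 2 := by
    have := congrArg List.length hw'
    rw [h4] at this
    simp at this
    omega
  obtain ⟨p, q, rfl⟩ := List.length_eq_two.1 hl
  rw [hw] at hw' hc
  simp only [List.cons_append, List.nil_append, List.cons.injEq] at hw'
  obtain ⟨hp, hq, hr⟩ := hw'
  subst hq
  rw [hr] at hc
  simp only [List.isChain_cons_cons, List.isChain_singleton, and_true] at hc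
  obtain ⟨c1, c2, c3⟩ := hc
  exact no5 (hsysX (hg := hg) (hgeo := hgeo) (hι := hι) hA) c1 c2 c3 (cor_sym h6) (cor_sym h5)

/-- module SIDE -/
theorem side (hA : ∀ x ∈ A, ∀ y ∈ A, x * y = y * x) (hS : StripStmt hg hgeo hι) :
    SideStmt hg hgeo hι := by
  intro c ρ n C b e W hCh hOk hNb hP t hb he
  have hd : ∀ i, 1 ≤ (C.d i).length := fun i => by rw [hOk.len]; exact hCh.ps
  have hn := hCh.ps
  have ho := o_succ C t
  have hlen := hOk.len t
  rw [hlen] at ho
  -- all inner walks have four letters
  have key : cs C W t = 0 → ∀ j, C.m t < j → j < C.o (t + 1) → (W j).length = 4 := by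
    intro h0 j hj1 hj2
    have h3 : ∀ j ∈ Finset.Ioo (C.m t) (C.o (t + 1)), val (W j) ≤ 0 := by
      intro j hj
      rw [Finset.mem_Ioo] at hj
      have := hP.leg t j hj.1 hj.2 (by omega) (by omega)
      rw [val]; omega
    have h4 := (Finset.sum_eq_zero_iff_of_nonpos h3).1 h0 j (Finset.mem_Ioo.2 ⟨hj1, hj2⟩)
    rw [val] at h4; omega
  have hst : cs C W t = 0 → ∀ j, C.m t ≤ j → j + 1 < C.o (t + 1) → ∀ n : XE A B g,
      (XX hg hgeo hι).Cor (xinv (C.lt j)) n → (XX hg hgeo hι).Cor n (C.lt (j + 1)) → False := by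
    intro h0 j hj1 hj2 n h5 h6
    exact straight hA hP (by omega) (by omega) (key h0 (j + 1) (by omega) hj2) n h5 h6
  have hleg := hOk.leg t
  have hne : C.d t ≠ [] := by
    intro h; rw [h] at hlen; simp at hlen; omega
  have hlast : (C.d t).getLast? = some (C.lt (C.o (t + 1) - 1)) := by
    rw [List.getLast?_eq_some_getLast hne, List.getLast_eq_getElem, ← lt_leg C hd t _ (by omega)]
    congr 2
    rw [hlen]; omega
  have hhead : (C.d t).head? = some (C.lt (C.m t)) := by
    rw [List.head?_eq_some_head hne, List.head_eq_getElem, ← lt_leg C hd t _ (by omega)]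
    simp
  refine ⟨fun h0 hsec => ?_, fun h0 hsec => ?_⟩
  · obtain ⟨e₂, he2, hprj⟩ := hsec
    have hdv : (C.d t).length = dVC hg hgeo hι (C.xp t) (c (t + 1)) := by
      apply le_antisymm
      · rw [hOk.len, ← hCh.ds t]
        exact dCC_le_dVC (hOk.op t)
      · exact dVC_path (hOk.om (t + 1)) hleg
    obtain ⟨a, μ, ha, hμ, hcor⟩ := hS (c (t + 1)) (C.xp t) (C.xm (t + 1)) (C.d t) e₂
      (hCh.pl (t + 1)) hleg (hOk.om (t + 1)) hdv (by
        intro l a b' r hl n h5 h6
        have hl1 : l.length + 1 < (C.d t).length := by rw [hl]; simp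
        have ha : a = C.lt (C.m t + l.length) := by
          rw [lt_leg C hd t _ (by omega)]
          simp [hl]
        have hb' : b' = C.lt (C.m t + l.length + 1) := by
          rw [add_assoc, lt_leg C hd t _ (by omega)]
          simp [hl]
        rw [ha] at h5
        rw [hb'] at h6
        exact hst h0 (C.m t + l.length) (by omega) (by omega) n h5 h6) hprj
      (by rw [hhead]; intro h; exact he2 (Option.some.inj h).symm) hne
    rw [hlast] at ha
    exact ⟨μ, hμ, by rw [eM, Option.some.inj ha]; exact hcor⟩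
  · obtain ⟨e₂, he2, hprj⟩ := hsec
    have hc6 : c (t + 1 + 5) = c t := by rw [add_assoc]; exact hCh.pc t
    rw [hc6] at hprj
    have hdv : ((XX hg hgeo hι).rv (C.d t)).length = dVC hg hgeo hι (C.xm (t + 1)) (c t) := by
      rw [rv_length]
      apply le_antisymm
      · rw [hOk.len, ← hCh.ds t, dCC_comm]
        exact dCC_le_dVC (hOk.om (t + 1))
      · have := dVC_path (hg := hg) (hgeo := hgeo) (hι := hι) (hOk.op t) hleg.rv
        rwa [rv_length] at this
    have hhead' : ((XX hg hgeo hι).rv (C.d t)).head? = some (xinv (C.lt (C.o (t + 1) - 1))) := by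
      rw [rv, List.head?_reverse, List.getLast?_map, hlast]; rfl
    have hlast' : ((XX hg hgeo hι).rv (C.d t)).getLast? = some (xinv (C.lt (C.m t))) := by
      rw [rv, List.getLast?_reverse, List.head?_map, hhead]; rfl
    obtain ⟨a, μ, ha, hμ, hcor⟩ := hS (c t) (C.xm (t + 1)) (C.xp t) ((XX hg hgeo hι).rv (C.d t)) e₂
      (hCh.pl t) hleg.rv (hOk.op t) hdv (by
        intro l a b' r hl n h5 h6
        have hl' : C.d t = (XX hg hgeo hι).rv r ++ (xinv b' :: xinv a :: (XX hg hgeo hι).rv l) := by
          have := congrArg (XX hg hgeo hι).rv hl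
          rw [rv_rv] at this
          rw [this]
          simp only [rv_append, rv_cons, List.append_assoc, List.cons_append, List.nil_append]
          rfl
        have hl1 : r.length + 1 < (C.d t).length := by rw [hl']; simp
        have hb' : xinv b' = C.lt (C.m t + r.length) := by
          rw [lt_leg C hd t _ (by omega)]
          simp [hl']
        have ha : xinv a = C.lt (C.m t + r.length + 1) := by
          rw [add_assoc, lt_leg C hd t _ (by omega)]
          simp [hl']
        refine hst h0 (C.m t + r.length) (by omega) (by omega) n ?_ ?_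
        · rw [← hb', xinv_xinv hg hgeo hι]; exact cor_sym h6
        · rw [← ha]; exact cor_sym h5) hprj
      (by rw [hhead']; intro h; exact he2 (Option.some.inj h).symm)
      (by intro h; apply hne; have := congrArg (XX hg hgeo hι).rv h; rwa [rv_rv] at this)
    rw [hlast'] at ha
    refine ⟨μ, hμ, ?_⟩
    have h7 : xinv a = C.lt (C.m t) := by rw [← Option.some.inj ha, xinv_xinv hg hgeo hι]
    rw [eP, ← h7]; exact hcor

end

end Pool.Agent.ABA.B.H63
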