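import Pool.Agent.Helper63_ABB.Cy
import Pool.Agent.Helper70_ABA.LobeInt
import Pool.Agent.Helper17_ABA.Lobe3

/-!
# Case Y without hypotheses (module CY, MP_d857f1_al, part B)
-/

set_option autoImplicit false

namespace Pool.Agent.ABA.B.H63

open Pool.Agent.ABA Pool.Agent.ABA.B Pool.Agent.ABA.B.TG Pool.Agent.ABA.B.H17

variable {G : Type} [Group G] {A B : Subgroup G} {g : G}
variable {hg : ¬ IsABA A B g} {hgeo : Geo A B} {hι : Function.Injective (Pι A B g)}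

/-- case Y of `MinStmt` is impossible for the classes Rt and Lt -/
theorem cy (hA : ∀ x ∈ A, ∀ y ∈ A, x * y = y * x) (M : Mods) (hSC : (XX hg hgeo hι).SC)
    {K : Trp A B g → Prop} {L : ℕ} (hK : Trp.Cls K) (hL : Trp.Low hg hgeo hι K L)
    (hKls : ∀ T, K T → T.Rt ∨ T.Lt hg hgeo hι) :
    ¬ ∃ T m, K T ∧ T.LY hg hgeo hι m = L ∧ ∀ T', K T' → L < T'.LV hg hgeo hι := fun h =>
  case_Y hA M hSC H70L.intL_ hub3_ (fix_stmt (hg := hg) (hgeo := hgeo) (hι := hι) M hSC hA) hK hL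
    hKls h

end Pool.Agent.ABA.B.H63
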