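import Pool.Agent.Helper63_ABB.Cy3

/-!
# Case Y is impossible (module CY, MP_d857f1_al, part B)
-/

set_option autoImplicit false

namespace Pool.Agent.ABA.B.H63

open Knd Pool.Agent.ABA Pool.Agent.ABA.B Pool.Agent.ABA.B.TG Pool.Agent.ABA.B.H17
  Pool.Agent.ABA.B.H89 Pool.Agent.ABA.B.H50 Pool.Agent.ABA.B.H49 Pool.Agent.ABA.B.H70L

variable {G : Type} [Group G] {A B : Subgroup G} {g : G}
variable {hg : ¬ IsABA A B g} {hgeo : Geo A B} {hι : Function.Injective (Pι A B g)}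
variable {F : Fy A B g} {L : ℕ}

theorem sum_three (f : ℕ → ℤ) {a b c : ℕ} (h0 : 0 < a) (h1 : a < b) (h2 : b < c) :
    ∑ i ∈ Finset.range c, f (i + 1) = ∑ i ∈ Finset.Ico (0 + 1) a, f i + f a +
      (∑ i ∈ Finset.Ico (a + 1) b, f i + f b) + (∑ i ∈ Finset.Ico (b + 1) c, f i + f c) := by
  rw [Finset.range_eq_Ico, Finset.sum_Ico_add' f 0 c 1,
    ← Finset.sum_Ico_consecutive f (show 0 + 1 ≤ a + 1 by omega) (show a + 1 ≤ c + 1 by omega),
    ← Finset.sum_Ico_consecutive f (show a + 1 ≤ b + 1 by omega) (show b + 1 ≤ c + 1 by omega),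
    Finset.sum_Ico_succ_top (by omega), Finset.sum_Ico_succ_top (by omega),
    Finset.sum_Ico_succ_top (by omega)]
  ring

theorem cor_dst {e f : XE A B g} (h : (XX hg hgeo hι).Cor e f) :
    dst (XX hg hgeo hι) (xsrc (xinv f)) (xsrc (xinv e)) ≤ 1 := by
  obtain ⟨c, hc⟩ := h
  have h1 : xsrc c = xsrc (xinv f) := (XX hg hgeo hι).tri_mid hc
  have h2 : xsrc (xinv c) = xsrc (xinv e) := (XX hg hgeo hι).tri_tgt hc
  have h3 : (XX hg hgeo hι).IsP (xsrc (xinv f)) [c] (xsrc (xinv e)) := ⟨h1, h2⟩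
  exact dst_le h3

theorem cor_dVC {e f : XE A B g} (h : (XX hg hgeo hι).Cor e f) (D : Car A B g) :
    dVC hg hgeo hι (xsrc (xinv e)) D ≤ 1 + dVC hg hgeo hι (xsrc (xinv f)) D ∧
    dVC hg hgeo hι (xsrc (xinv f)) D ≤ 1 + dVC hg hgeo hι (xsrc (xinv e)) D := by
  have h1 := cor_dst h
  have h2 := dVC_tri (hg := hg) (hgeo := hgeo) (hι := hι) (xsrc (xinv e)) (xsrc (xinv f)) D
  have h3 := dVC_tri (hg := hg) (hgeo := hgeo) (hι := hι) (xsrc (xinv f)) (xsrc (xinv e)) D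
  rw [dst_comm (connX (hg := hg) (hgeo := hgeo) (hι := hι))] at h2
  omega

theorem cy_count (hA : ∀ x ∈ A, ∀ y ∈ A, x * y = y * x) (M : Mods) (hSC : (XX hg hgeo hι).SC)
    (hInt : IntLStmt hg hgeo hι) (hHub : Hub3Stmt hg hgeo hι) (hfix : FixStmt A B g)
    (hF : F.Ok hg hgeo hι L) (hK : KlsY hg hgeo hι F) : False := by
  obtain ⟨γ1, s1, γ2, s2, γ3, s3, hP, hM⟩ := exists_mini hfix hF
  have hpf := cy_pf hfix hF hP hM
  have hcl : (XX hg hgeo hι).Cl (F.word hg hgeo hι γ1 s1 γ2 s2 γ3 s3) := ⟨_, hP.path hF⟩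
  have hm1 := lobeMin1 hF hP hM
  have hm2 := lobeMin2 hF hP hM
  have hm3 := lobeMin3 hF hP hM
  obtain ⟨e1, r1, rfl, k1, o1, d1⟩ := lobe_first hP.l1 hF.q1
  obtain ⟨e2, r2, rfl, k2, o2, d2⟩ := lobe_first hP.l2 hF.q2
  obtain ⟨e3, r3, rfl, k3, o3, d3⟩ := lobe_first hP.l3 hF.q3
  have ne12 := first_ne hfix hF hP.l1 hP.l2
  have ne23 := first_ne hfix hF.cyc hP.l2 hP.l3
  have ne31 := first_ne hfix hF.cyc.cyc hP.l3 hP.l1
  obtain ⟨w, hw⟩ : ∃ w, w = F.word hg hgeo hι (e1 :: r1) s1 (e2 :: r2) s2 (e3 :: r3) s3 := ⟨_, rfl⟩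
  rw [← hw] at hpf hcl
  obtain ⟨l1, hl1⟩ : ∃ l, l = lobe hg hgeo hι F.x1 (e1 :: r1) s1 := ⟨_, rfl⟩
  obtain ⟨l2, hl2⟩ : ∃ l, l = lobe hg hgeo hι F.x2 (e2 :: r2) s2 := ⟨_, rfl⟩
  obtain ⟨l3, hl3⟩ : ∃ l, l = lobe hg hgeo hι F.x3 (e3 :: r3) s3 := ⟨_, rfl⟩
  have hw1 : w = l1 ++ l2 ++ l3 := by rw [hw, hl1, hl2, hl3]; rfl
  have n1 : 2 ≤ l1.length := by rw [hl1, k1]; simp; omega
  have n2 : 2 ≤ l2.length := by rw [hl2, k2]; simp; omega
  have n3 : 2 ≤ l3.length := by rw [hl3, k3]; simp; omega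
  have hN : w.length = l1.length + l2.length + l3.length := by
    rw [hw1, List.length_append, List.length_append]
  obtain ⟨a, W, I, hD⟩ := exists_DW _ _ _ M hSC w hcl hpf (by rintro rfl; simp at hN; omega)
    (by rintro e rfl; simp at hN; omega)
  have h6 := six_le hD.bd (hsysX (hg := hg) (hgeo := hgeo) (hι := hι) hA)
  -- the corners at the hub copies
  have W0 : Wk (XX hg hgeo hι) (W 0) (actE F.x3 e3) e1 := by
    have h1 := wk_zero hD (e := e1) (f := actE F.x3 (xinv e3))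
      (v := (r1 ++ s1 ++ ((XX hg hgeo hι).rv r1).map (actE F.x1)) ++ [actE F.x1 (xinv e1)] ++
        l2 ++ l3) (by rw [hw1, hl1, k1]; simp) (by
        rw [hw1, hl3, k3, List.getLast?_append, List.getLast?_append]
        simp)
    rwa [xinv_act, xinv_xinv hg hgeo hι] at h1
  have W1 : Wk (XX hg hgeo hι) (W l1.length) (actE F.x1 e1) e2 := by
    have h1 := dw_wk hD (l := e1 :: (r1 ++ s1 ++ ((XX hg hgeo hι).rv r1).map (actE F.x1)))
      (b := actE F.x1 (xinv e1)) (c := e2)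
      (r := (r2 ++ s2 ++ ((XX hg hgeo hι).rv r2).map (actE F.x2)) ++ [actE F.x2 (xinv e2)] ++ l3)
      (by rw [hw1, hl1, hl2, k1, k2]; simp)
    rw [xinv_act, xinv_xinv hg hgeo hι] at h1
    have h2 : l1.length = (e1 :: (r1 ++ s1 ++ ((XX hg hgeo hι).rv r1).map
      (actE F.x1))).length + 1 := by rw [hl1, k1, List.length_append]; simp
    rw [h2]; exact h1
  have W2 : Wk (XX hg hgeo hι) (W (l1.length + l2.length)) (actE F.x2 e2) e3 := by
    have h1 := dw_wk hD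
      (l := l1 ++ (e2 :: (r2 ++ s2 ++ ((XX hg hgeo hι).rv r2).map (actE F.x2))))
      (b := actE F.x2 (xinv e2)) (c := e3)
      (r := (r3 ++ s3 ++ ((XX hg hgeo hι).rv r3).map (actE F.x3)) ++ [actE F.x3 (xinv e3)])
      (by rw [hw1, hl2, hl3, k2, k3]; simp)
    rw [xinv_act, xinv_xinv hg hgeo hι] at h1
    have h2 : l1.length + l2.length = (l1 ++ (e2 :: (r2 ++ s2 ++ ((XX hg hgeo hι).rv r2).map
      (actE F.x2)))).length + 1 := by
      rw [hl2, k2, List.length_append, List.length_append]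
      simp only [List.length_cons, List.length_nil, List.length_append]
      omega
    rw [h2]; exact h1
  -- the hub
  have x2e : F.x2 = F.x3⁻¹ * F.x1⁻¹ := by
    have h1 := hF.mul
    have h2 : F.x3 * F.x2 = F.x1⁻¹ := mul_eq_one_iff_eq_inv.1 h1
    rw [← h2]; group
  have E2' : actE F.x3⁻¹ (actE F.x1⁻¹ e2) = actE F.x2 e2 := by
    rw [x2e, actE_mul]; rfl
  have hub := hHub hA e1 (actE F.x1⁻¹ e2) (actE F.x3 e3) F.x1 F.x3⁻¹ 1
    (W l1.length) (W (l1.length + l2.length)) (W 0)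
    (by rw [Slt.actE_act_inv]; exact W1)
    (by rw [E2', Slt.actE_inv_act]; exact W2)
    (by rw [actE_one]; exact W0)
    (by
      intro h
      apply ne12
      rw [h, Slt.actE_act_inv])
    (by
      intro h
      apply ne23
      change actE F.x2 e2 = e3
      rw [← E2', h, Slt.actE_inv_act])
    ne31
  have hy : ∀ n, L ≤ dVC hg hgeo hι n F.D1 + dVC hg hgeo hι n (F.x1⁻¹ • F.D2) +
      dVC hg hgeo hι n F.D3 := by
    intro n
    have h1 := hF.y12 (F.x1 • n)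
    rw [dVC_stab hF.s1, dVC_smul] at h1
    have h2 := dVC_smul (hg := hg) (hgeo := hgeo) (hι := hι) F.x1 n (F.x1⁻¹ • F.D2)
    rw [smul_inv_smul] at h2
    omega
  have hs := hF.sum
  have b2 : dVC hg hgeo hι (xsrc (xinv (actE F.x1⁻¹ e2))) (F.x1⁻¹ • F.D2) + 1 ≤
      dVC hg hgeo hι F.p2 F.D2 := by
    rw [xinv_act, xsrc_act, dVC_smul]; exact d2
  have b3 : dVC hg hgeo hι (xsrc (xinv (actE F.x3 e3))) F.D3 + 1 ≤
      dVC hg hgeo hι F.p3 F.D3 := by
    rw [xinv_act, xsrc_act, dVC_stab hF.s3]; exact d3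
  have hub3 : vl W l1.length + vl W (l1.length + l2.length) + vl W 0 ≤ 3 := by
    rcases hub with h | ⟨h1, h2⟩ | ⟨h1, h2⟩ | ⟨h1, h2⟩
    · exact h
    · exfalso
      have c1 := (cor_dVC h1 F.D3).2
      have c2 := (cor_dVC h2 (F.x1⁻¹ • F.D2)).1
      have := hy (xsrc (xinv e1))
      omega
    · exfalso
      have c1 := (cor_dVC h1 F.D1).2
      have c2 := (cor_dVC h2 F.D3).1
      have := hy (xsrc (xinv (actE F.x1⁻¹ e2)))
      omega
    · exfalso
      have c1 := (cor_dVC h1 (F.x1⁻¹ • F.D2)).2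
      have c2 := (cor_dVC h2 F.D1).1
      have := hy (xsrc (xinv (actE F.x3 e3)))
      omega
  -- the lobes
  have i1 := hInt hA M hSC _ _ _ _ _ _ _ _ w a W I (by rw [hw]; simp [Fy.word]) hcl hD hm1 hF.q1
  have i2 := hInt hA M hSC _ _ _ _ _ _ _ _ w a W I (by rw [hw]; rfl) hcl hD hm2 hF.q2
  have i3 := hInt hA M hSC _ _ _ _ _ _ _ _ w a W I (by rw [hw, List.append_nil]; rfl) hcl hD hm3
    hF.q3
  rw [← hl1, ← hl2] at i2
  rw [← hl1, ← hl2, ← hl3, List.length_append] at i3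
  rw [← hl1, List.length_nil, Nat.zero_add] at i1
  have hsum : (6 : ℤ) ≤ vsum W 0 l1.length + vl W l1.length +
      (vsum W l1.length (l1.length + l2.length) + vl W (l1.length + l2.length)) +
      (vsum W (l1.length + l2.length) (l1.length + l2.length + l3.length) + vl W 0) := by
    have h1 := sum_three (vl W) (a := l1.length) (b := l1.length + l2.length)
      (c := l1.length + l2.length + l3.length) (by omega) (by omega) (by omega)
    have h2 : vl W (l1.length + l2.length + l3.length) = vl W 0 := by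
      have := hD.bd.perW 0
      rw [Nat.zero_add, hN] at this
      unfold vl
      rw [this]
    rw [h2] at h1
    rw [hN] at h6
    have h3 : ∑ i ∈ Finset.range (l1.length + l2.length + l3.length), vl W (i + 1) =
      ∑ i ∈ Finset.range (l1.length + l2.length + l3.length), ((4 : ℤ) - (W (i + 1)).length) := rfl
    rw [← h3, h1] at h6
    exact h6
  obtain ⟨i1a, i1b, i1c, i1d⟩ := i1
  obtain ⟨i2a, i2b, i2c, i2d⟩ := i2
  obtain ⟨i3a, i3b, i3c, i3d⟩ := i3
  rcases hK with ⟨p1, p2, p3, h⟩ | ⟨h, r1', r2', r3', t1, t2, t3⟩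
  · have u1 : vsum W 0 l1.length ≤ 1 := by
      by_cases hr : Rot F.x1
      · exact i1a hr
      · exact (i1b hr p1).trans (by norm_num)
    have u2 : vsum W l1.length (l1.length + l2.length) ≤ 1 := by
      by_cases hr : Rot F.x2
      · exact i2a hr
      · exact (i2b hr p2).trans (by norm_num)
    have u3 : vsum W (l1.length + l2.length) (l1.length + l2.length + l3.length) ≤ 1 := by
      by_cases hr : Rot F.x3
      · exact i3a hr
      · exact (i3b hr p3).trans (by norm_num)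
    rcases h with h | h | h
    · have := i1b h.1 p1; have := i2b h.2 p2; omega
    · have := i2b h.1 p2; have := i3b h.2 p3; omega
    · have := i1b h.1 p1; have := i3b h.2 p3; omega
  · rcases h with ⟨p1, p2, p3⟩ | ⟨p1, p2, p3⟩ | ⟨p1, p2, p3⟩
    · have := i1d r1' p1 t1; have := i2b r2' p2; have := i3b r3' p3; omega
    · have := i1b r1' p1; have := i2d r2' p2 t2; have := i3b r3' p3; omega
    · have := i1b r1' p1; have := i2b r2' p2; have := i3d r3' p3 t3; omega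

/-- **case Y** is impossible for the classes Rt and Lt -/
theorem case_Y (hA : ∀ x ∈ A, ∀ y ∈ A, x * y = y * x) (M : Mods) (hSC : (XX hg hgeo hι).SC)
    (hInt : IntLStmt hg hgeo hι) (hHub : Hub3Stmt hg hgeo hι) (hfix : FixStmt A B g)
    {K : Trp A B g → Prop} (hK : Trp.Cls K) (hL : Trp.Low hg hgeo hι K L)
    (hKls : ∀ T, K T → T.Rt ∨ T.Lt hg hgeo hι)
    (hY : ∃ T m, K T ∧ T.LY hg hgeo hι m = L ∧ ∀ T', K T' → L < T'.LV hg hgeo hι) : False := by
  obtain ⟨T, m, hT, hLY, hLV⟩ := hY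
  exact cy_count hA M hSC hInt hHub hfix (ok_ofTY hK hL hT hLY hLV)
    (kls_ofTY (hKls T hT))

end Pool.Agent.ABA.B.H63
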