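import Pool.Agent.Helper50_ABB.CvPF

/-!
# Case Y: three-lobe polygons are pinch-free (module CY, MP_d857f1_al, part B, section 6)

Frame: carriers `D1, D2, D3`, `x_i D_i = D_i`, hub copies `p1`, `p2 = x1 p1`, `p3 = x2 p2`,
`x3 p3 = p1`. Polygon: `lobe x1 γ1 s1 ++ lobe x2 γ2 s2 ++ lobe x3 γ3 s3`.
-/

set_option autoImplicit false

namespace Pool.Agent.ABA.B.H63

open Knd Pool.Agent.ABA Pool.Agent.ABA.B Pool.Agent.ABA.B.TG Pool.Agent.ABA.B.H17
  Pool.Agent.ABA.B.H89 Pool.Agent.ABA.B.H50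

/-- frame of a three-lobe polygon -/
structure Fy {G : Type} [Group G] (A B : Subgroup G) (g : G) where
  D1 : Car A B g
  D2 : Car A B g
  D3 : Car A B g
  x1 : PP A B g
  x2 : PP A B g
  x3 : PP A B g
  p1 : XV A B g
  p2 : XV A B g
  p3 : XV A B g

variable {G : Type} [Group G] {A B : Subgroup G} {g : G}

namespace Fy

/-- cyclic move -/
def cyc (F : Fy A B g) : Fy A B g := ⟨F.D2, F.D3, F.D1, F.x2, F.x3, F.x1, F.p2, F.p3, F.p1⟩

section

variable (hg : ¬ IsABA A B g) (hgeo : Geo A B) (hι : Function.Injective (Pι A B g))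

/-- the frame of a minimal triple in case Y -/
structure Ok (F : Fy A B g) (L : ℕ) : Prop where
  mul : F.x3 * F.x2 * F.x1 = 1
  s1 : F.x1 • F.D1 = F.D1
  s2 : F.x2 • F.D2 = F.D2
  s3 : F.x3 • F.D3 = F.D3
  n1 : F.x1 ≠ 1
  n2 : F.x2 ≠ 1
  n3 : F.x3 ≠ 1
  h12 : F.x1 • F.p1 = F.p2
  h23 : F.x2 • F.p2 = F.p3
  h31 : F.x3 • F.p3 = F.p1
  q1 : 1 ≤ dVC hg hgeo hι F.p1 F.D1
  q2 : 1 ≤ dVC hg hgeo hι F.p2 F.D2
  q3 : 1 ≤ dVC hg hgeo hι F.p3 F.D3
  sum : dVC hg hgeo hι F.p1 F.D1 + dVC hg hgeo hι F.p2 F.D2 + dVC hg hgeo hι F.p3 F.D3 = L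
  y : ∀ n, L ≤ dVC hg hgeo hι n F.D1 + dVC hg hgeo hι n F.D2 + dVC hg hgeo hι n F.D3
  y12 : ∀ n, L ≤ dVC hg hgeo hι n F.D1 + dVC hg hgeo hι n F.D2 + dVC hg hgeo hι n (F.x1 • F.D3)
  y23 : ∀ n, L ≤ dVC hg hgeo hι n F.D2 + dVC hg hgeo hι n F.D3 + dVC hg hgeo hι n (F.x2 • F.D1)
  y31 : ∀ n, L ≤ dVC hg hgeo hι n F.D3 + dVC hg hgeo hι n F.D1 + dVC hg hgeo hι n (F.x3 • F.D2)
  v12 : L ≤ dCC hg hgeo hι F.D1 F.D2 + dCC hg hgeo hι F.D1 F.D3
  v23 : L ≤ dCC hg hgeo hι F.D2 F.D3 + dCC hg hgeo hι F.D2 F.D1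
  v31 : L ≤ dCC hg hgeo hι F.D3 F.D1 + dCC hg hgeo hι F.D3 F.D2

/-- three lobes -/
structure Poly (F : Fy A B g) (γ1 s1 γ2 s2 γ3 s3 : List (XE A B g)) : Prop where
  l1 : IsLobe hg hgeo hι F.D1 F.x1 F.p1 (dVC hg hgeo hι F.p1 F.D1) γ1 s1
  l2 : IsLobe hg hgeo hι F.D2 F.x2 F.p2 (dVC hg hgeo hι F.p2 F.D2) γ2 s2
  l3 : IsLobe hg hgeo hι F.D3 F.x3 F.p3 (dVC hg hgeo hι F.p3 F.D3) γ3 s3

/-- the word of the polygon -/
def word (F : Fy A B g) (γ1 s1 γ2 s2 γ3 s3 : List (XE A B g)) : List (XE A B g) :=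
  lobe hg hgeo hι F.x1 γ1 s1 ++ lobe hg hgeo hι F.x2 γ2 s2 ++ lobe hg hgeo hι F.x3 γ3 s3

/-- minimal: first the area, then the total length of the flat sides -/
def Mini (F : Fy A B g) (γ1 s1 γ2 s2 γ3 s3 : List (XE A B g)) : Prop :=
  ∀ g1 t1 g2 t2 g3 t3, F.Poly hg hgeo hι g1 t1 g2 t2 g3 t3 →
    (XX hg hgeo hι).ar (F.word hg hgeo hι γ1 s1 γ2 s2 γ3 s3) ≤
      (XX hg hgeo hι).ar (F.word hg hgeo hι g1 t1 g2 t2 g3 t3) ∧
    ((XX hg hgeo hι).ar (F.word hg hgeo hι g1 t1 g2 t2 g3 t3) ≤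
      (XX hg hgeo hι).ar (F.word hg hgeo hι γ1 s1 γ2 s2 γ3 s3) →
        s1.length + s2.length + s3.length ≤ t1.length + t2.length + t3.length)

end

end Fy

variable {hg : ¬ IsABA A B g} {hgeo : Geo A B} {hι : Function.Injective (Pι A B g)}
variable {F : Fy A B g} {L : ℕ}

theorem Fy.Ok.cyc (h : F.Ok hg hgeo hι L) : F.cyc.Ok hg hgeo hι L where
  mul := by
    have h1 := h.mul
    change F.x1 * F.x3 * F.x2 = 1
    have h2 : F.x3 * F.x2 = F.x1⁻¹ := mul_eq_one_iff_eq_inv.1 h1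
    rw [mul_assoc, h2, mul_inv_cancel]
  s1 := h.s2
  s2 := h.s3
  s3 := h.s1
  n1 := h.n2
  n2 := h.n3
  n3 := h.n1
  h12 := h.h23
  h23 := h.h31
  h31 := h.h12
  q1 := h.q2
  q2 := h.q3
  q3 := h.q1
  sum := by rw [← h.sum]; simp only [Fy.cyc]; ring
  y := fun n => by have := h.y n; simp only [Fy.cyc]; omega
  y12 := h.y23
  y23 := h.y31
  y31 := h.y12
  v12 := h.v23
  v23 := h.v31
  v31 := h.v12

/-! ## one lobe -/

/-- distance of the hub copies -/
theorem dVC_stab {D : Car A B g} {z : PP A B g} (hz : z • D = D) (p : XV A B g) :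
    dVC hg hgeo hι (z • p) D = dVC hg hgeo hι p D := by
  have := dVC_smul (hg := hg) (hgeo := hgeo) (hι := hι) z p D
  rwa [hz] at this

/-- positions of a lobe -/
theorem lobe_pos {D : Car A B g} {z : PP A B g} {p n : XV A B g}
    {γ s u v : List (XE A B g)} (hz : z • D = D)
    (hL : IsLobe hg hgeo hι D z p (dVC hg hgeo hι p D) γ s)
    (he : lobe hg hgeo hι z γ s = u ++ v) (hu : (XX hg hgeo hι).IsP p u n) :
    dVC hg hgeo hι n D = 0 ∨
    (u.length + dVC hg hgeo hι n D ≤ dVC hg hgeo hι p D) ∨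
    (v.length + dVC hg hgeo hι n D ≤ dVC hg hgeo hι p D) := by
  obtain ⟨y, hy, hγ, hs⟩ := hL.mid
  have hl := hL.len
  have oy2 : On D (z • y) := by
    have := hy.smul z
    rwa [hz] at this
  have hgx : (XX hg hgeo hι).IsP (z • y) (((XX hg hgeo hι).rv γ).map (actE z)) (z • p) :=
    IsP_act z hγ.rv
  unfold lobe at he
  rw [List.append_assoc] at he
  rcases seg_split he hγ hu with ⟨u1, v1, e1, a1, e3, i1, i2⟩ | ⟨t1, a1, hw, i0⟩
  · right; left
    have h1 := dVC_path (hg := hg) (hgeo := hgeo) (hι := hι) hy i2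
    have h2 := congrArg List.length e1
    rw [List.length_append] at h2
    rw [a1]
    omega
  rcases seg_split hw hs.1 i0 with ⟨u1, v1, e1, a2, e3, i1, i2⟩ | ⟨t2, a2, hw, i0⟩
  · left
    rw [dVC_eq_zero]
    exact (isP_side (by rw [← e1]; exact hs) i1).1.on hy
  · right; right
    have h1 := dVC_path (hg := hg) (hgeo := hgeo) (hι := hι) oy2 i0.rv
    have h2 := congrArg List.length hw
    rw [List.length_append, List.length_map, rv_length] at h2
    rw [rv_length] at h1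
    omega

/-- a vertex on a slit and on its image is the foot -/
theorem slit_back' (hfix : FixStmt A B g) {D : Car A B g} {z : PP A B g} {n p y : XV A B g}
    {γ u v u' v' : List (XE A B g)} (hz : z • D = D) (hz1 : z ≠ 1) (hy : On D y)
    (hk : γ.length = dVC hg hgeo hι p D)
    (e1 : γ = u ++ v) (hu : (XX hg hgeo hι).IsP p u n) (hv : (XX hg hgeo hι).IsP n v y)
    (e2 : ((XX hg hgeo hι).rv γ).map (actE z) = u' ++ v')
    (hu' : (XX hg hgeo hι).IsP (z • y) u' n) (hv' : (XX hg hgeo hι).IsP n v' (z • p)) :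
    v = [] ∧ Rot z ∧ u' = [] := by
  have oy : On D (z • y) := by
    have := hy.smul z
    rwa [hz] at this
  have l0 : γ.length = u.length + v.length := by rw [e1, List.length_append]
  have l0' : γ.length = u'.length + v'.length := by
    have := congrArg List.length e2
    rw [List.length_map, rv_length, List.length_append] at this
    exact this
  have d1 := dVC_path (hg := hg) (hgeo := hgeo) (hι := hι) oy (isP_append.2 ⟨n, hu, hu'.rv⟩)
  have d2 := dVC_path (hg := hg) (hgeo := hgeo) (hι := hι) hy (isP_append.2 ⟨n, hv'.rv, hv⟩)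
  rw [dVC_stab hz] at d2
  rw [List.length_append, rv_length] at d1 d2
  have hlen : ((XX hg hgeo hι).rv v).length = u'.length := by
    rw [rv_length]
    omega
  rw [e1, rv_append, List.map_append] at e2
  have e3 := List.append_inj_left e2 (by rw [List.length_map]; exact hlen)
  have h1 : (XX hg hgeo hι).IsP (z • y) u' (z • n) := by
    rw [← e3]
    exact IsP_act z hv.rv
  have h2 : z • n = n := h1.eq hu'
  have hr : Rot z := by
    by_contra hr
    exact (hfix D z hz1 hz).2 hr n h2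
  have h3 : On D n := ((hfix D z hz1 hz).1 hr n).1 h2
  have h4 : v = [] := by
    have := dVC_path (hg := hg) (hgeo := hgeo) (hι := hι) h3 hu
    exact List.eq_nil_of_length_eq_zero (by omega)
  refine ⟨h4, hr, ?_⟩
  apply List.eq_nil_of_length_eq_zero
  rw [← hlen, rv_length, h4]
  rfl

/-- a closed block in a lobe can be cut off -/
theorem lobe_same (hfix : FixStmt A B g) {D : Car A B g} {z : PP A B g} {p n : XV A B g}
    {γ s u t v : List (XE A B g)} (hz : z • D = D) (hz1 : z ≠ 1)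
    (hL : IsLobe hg hgeo hι D z p (dVC hg hgeo hι p D) γ s)
    (he : lobe hg hgeo hι z γ s = u ++ (t ++ v)) (hu : (XX hg hgeo hι).IsP p u n)
    (ht : (XX hg hgeo hι).IsP n t n) (ht0 : t ≠ []) :
    ∃ s', IsLobe hg hgeo hι D z p (dVC hg hgeo hι p D) γ s' ∧ s'.length < s.length ∧
      u ++ v = lobe hg hgeo hι z γ s' := by
  have ht1 : 1 ≤ t.length := List.length_pos_iff.2 ht0
  obtain ⟨y, hy, hγ, hs⟩ := hL.mid
  have hl := hL.len
  have hr := hL.rot
  have oy2 : On D (z • y) := by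
    have := hy.smul z
    rwa [hz] at this
  have hgx : (XX hg hgeo hι).IsP (z • y) (((XX hg hgeo hι).rv γ).map (actE z)) (z • p) :=
    IsP_act z hγ.rv
  have lx : (((XX hg hgeo hι).rv γ).map (actE z)).length = γ.length := by
    rw [List.length_map, rv_length]
  unfold lobe at he
  rw [List.append_assoc] at he
  rcases seg_split he hγ hu with ⟨u1, v1, e1, a1, e3, i1, i2⟩ | ⟨t1, a1, hw, i0⟩
  · rcases seg_split e3.symm i2 ht with ⟨u2, v2, g1, g2, g3, j1, j2⟩ | ⟨r1, m1, hx, j0⟩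
    · -- closed block on the slit
      exfalso
      have h1 := dVC_path (hg := hg) (hgeo := hgeo) (hι := hι) hy (isP_append.2 ⟨n, i1, j2⟩)
      have h2 := congrArg List.length e1
      rw [g1, ← g2] at h2
      simp only [List.length_append] at h1 h2
      omega
    rcases seg_split hx hs.1 j0 with ⟨u2, v2, g1, g2, g3, j1, j2⟩ | ⟨r2, m2, hx, j0⟩
    · obtain ⟨k1, k2⟩ := isP_side (by rw [← g1]; exact hs) j1
      have hn := k1.on hy
      have hv1 : v1 = [] := by
        have h1 := dVC_path (hg := hg) (hgeo := hgeo) (hι := hι) hn i1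
        have h2 := congrArg List.length e1
        rw [List.length_append] at h2
        exact List.eq_nil_of_length_eq_zero (by omega)
      subst hv1
      have hny : n = y := nil_path i2
      subst hny
      refine ⟨v2, ⟨hl, ⟨n, hy, hγ, k2⟩, nil_r hr g1⟩, ?_, ?_⟩
      · have h3 := congrArg List.length g1
        rw [List.length_append] at h3
        have h4 := congrArg List.length m1
        rw [g2, List.length_append] at h4
        simp only [List.length_nil] at h4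
        omega
      · unfold lobe
        rw [a1, g3, e1]
        simp
    · exfalso
      obtain ⟨n1, n2, n3⟩ := slit_back' hfix hz hz1 hy hl e1 i1 i2 hx j0 (by
        have h5 := hgx
        rw [hx] at h5
        obtain ⟨z1, h6, h7⟩ := isP_append.1 h5
        rwa [h6.eq j0] at h7)
      have h8 := hr n2
      rw [m2, n1, n3, h8] at m1
      exact ht0 m1
  · rcases seg_split hw hs.1 i0 with ⟨u1, v1, e1, a2, e3, i1, i2⟩ | ⟨t2, a2, hw, i0⟩
    · obtain ⟨q1, q2⟩ := isP_side (by rw [← e1]; exact hs) i1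
      have hn := q1.on hy
      rcases seg_split e3.symm i2 ht with ⟨u2, v2, g1, g2, g3, j1, j2⟩ | ⟨r1, m1, hx, j0⟩
      · obtain ⟨k1, k2⟩ := isP_side (by rw [← g1]; exact q2) j1
        refine ⟨u1 ++ v2, ⟨hl, ⟨y, hy, hγ, q1.append hg hgeo hι k2⟩,
          nil_m hr (e1.trans (by rw [g1]))⟩, ?_, ?_⟩
        · rw [e1, g1, ← g2]
          simp only [List.length_append]
          omega
        · unfold lobe
          rw [a1, g3, a2]
          simp
      · have hr1 : r1 = [] := by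
          have h5 := hgx
          rw [hx] at h5
          obtain ⟨z1, h6, h7⟩ := isP_append.1 h5
          rw [h6.eq j0] at h7
          have h1 := dVC_path (hg := hg) (hgeo := hgeo) (hι := hι) hn h7.rv
          rw [dVC_stab hz, rv_length] at h1
          have h2 := congrArg List.length hx
          rw [lx, List.length_append] at h2
          exact List.eq_nil_of_length_eq_zero (by omega)
        subst hr1
        have hny : z • y = n := nil_path j0
        subst hny
        refine ⟨u1, ⟨hl, ⟨y, hy, hγ, q1⟩, nil_l hr e1⟩, ?_, ?_⟩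
        · rw [List.append_nil] at m1
          rw [e1, ← m1]
          simp only [List.length_append]
          omega
        · unfold lobe
          rw [List.nil_append] at hx
          rw [a1, a2, hx]
    · exfalso
      have h5 := hgx
      rw [hw] at h5
      obtain ⟨z1, h6, h7⟩ := isP_append.1 h5
      rw [h6.eq i0] at h7
      obtain ⟨z2, h8, h9⟩ := isP_append.1 h7
      rw [h8.eq ht] at h9
      have h1 := dVC_path (hg := hg) (hgeo := hgeo) (hι := hι) oy2
        (isP_append.2 ⟨n, h9.rv, i0.rv⟩)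
      rw [dVC_stab hz] at h1
      have h2 := congrArg List.length hw
      rw [lx] at h2
      simp only [List.length_append, rv_length] at h1 h2
      omega

/-! ## two lobes -/

/-- a vertex which lies on the first and on the second lobe is the common hub copy -/
theorem lobe_two (hfix : FixStmt A B g) (hF : F.Ok hg hgeo hι L)
    {γ1 s1 γ2 s2 u1 v1 u2 v2 : List (XE A B g)} {n : XV A B g}
    (h1 : IsLobe hg hgeo hι F.D1 F.x1 F.p1 (dVC hg hgeo hι F.p1 F.D1) γ1 s1)
    (h2 : IsLobe hg hgeo hι F.D2 F.x2 F.p2 (dVC hg hgeo hι F.p2 F.D2) γ2 s2)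
    (e1 : lobe hg hgeo hι F.x1 γ1 s1 = u1 ++ v1) (i1 : (XX hg hgeo hι).IsP F.p1 u1 n)
    (e2 : lobe hg hgeo hι F.x2 γ2 s2 = u2 ++ v2) (i2 : (XX hg hgeo hι).IsP F.p2 u2 n) :
    v1 = [] ∧ u2 = [] := by
  have j1 : (XX hg hgeo hι).IsP n v1 F.p2 := by
    have h5 := h1.path
    rw [e1, hF.h12] at h5
    obtain ⟨z1, h6, h7⟩ := isP_append.1 h5
    rwa [h6.eq i1] at h7
  have j2 : (XX hg hgeo hι).IsP n v2 F.p3 := by
    have h5 := h2.path
    rw [e2, hF.h23] at h5
    obtain ⟨z1, h6, h7⟩ := isP_append.1 h5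
    rwa [h6.eq i2] at h7
  have c1 : dVC hg hgeo hι F.p1 F.D3 = dVC hg hgeo hι F.p3 F.D3 := by
    rw [← hF.h31, dVC_stab hF.s3]
  have c2 : dVC hg hgeo hι F.p2 (F.x1 • F.D3) = dVC hg hgeo hι F.p3 F.D3 := by
    rw [← hF.h12, dVC_smul, c1]
  have a1 := dst_le i1
  have a2 := dst_le i2
  have b1 := dst_le j1
  have b2 := dst_le j2
  have hy := hF.y n
  have hy2 := hF.y12 n
  have hs := hF.sum
  have q1 := hF.q1
  have q2 := hF.q2
  have q3 := hF.q3
  have hc := connX (hg := hg) (hgeo := hgeo) (hι := hι)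
  have t1 := dVC_tri (hg := hg) (hgeo := hgeo) (hι := hι) n F.p1 F.D3
  have t2 := dVC_tri (hg := hg) (hgeo := hgeo) (hι := hι) n F.p2 (F.x1 • F.D3)
  have t3 := dVC_tri (hg := hg) (hgeo := hgeo) (hι := hι) n F.p3 F.D3
  rw [dst_comm hc] at t1 
  have t2' : dst (XX hg hgeo hι) n F.p2 = dst (XX hg hgeo hι) F.p2 n := dst_comm hc _ _
  rw [c1] at t1
  rw [c2] at t2
  -- different hub copies
  have f12 : F.p1 ≠ F.p2 := by
    intro h
    have h5 := hF.h12
    rw [← h] at h5
    have h6 : On F.D1 F.p1 := by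
      by_cases hr : Rot F.x1
      · exact ((hfix _ _ hF.n1 hF.s1).1 hr _).1 h5
      · exact absurd h5 ((hfix _ _ hF.n1 hF.s1).2 hr _)
    rw [dVC_on h6] at q1
    omega
  have f23 : F.p2 ≠ F.p3 := by
    intro h
    have h5 := hF.h23
    rw [← h] at h5
    have h6 : On F.D2 F.p2 := by
      by_cases hr : Rot F.x2
      · exact ((hfix _ _ hF.n2 hF.s2).1 hr _).1 h5
      · exact absurd h5 ((hfix _ _ hF.n2 hF.s2).2 hr _)
    rw [dVC_on h6] at q2
    omega
  have f31 : F.p3 ≠ F.p1 := by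
    intro h
    have h5 := hF.h31
    rw [← h] at h5
    have h6 : On F.D3 F.p3 := by
      by_cases hr : Rot F.x3
      · exact ((hfix _ _ hF.n3 hF.s3).1 hr _).1 h5
      · exact absurd h5 ((hfix _ _ hF.n3 hF.s3).2 hr _)
    rw [dVC_on h6] at q3
    omega
  have nil : ∀ (a b : XV A B g) (w : List (XE A B g)), (XX hg hgeo hι).IsP a w b → w.length = 0 →
      a = b ∧ w = [] := by
    intro a b w hw hl
    have h5 := List.eq_nil_of_length_eq_zero hl
    subst h5
    exact ⟨nil_path hw, rfl⟩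
  rcases lobe_pos hF.s1 h1 e1 i1 with r1 | r1 | r1
  · rcases lobe_pos hF.s2 h2 e2 i2 with r2 | r2 | r2
    · exfalso
      rw [dVC_eq_zero] at r1 r2
      have h5 := hF.v12
      have h6 : dCC hg hgeo hι F.D1 F.D2 = 0 := dCC_eq_zero.2 ⟨n, r1, r2⟩
      have h7 := dCC_le_add (hg := hg) (hgeo := hgeo) (hι := hι) F.p1 F.D1 F.D3
      omega
    · omega
    · omega
  · rcases lobe_pos hF.s2 h2 e2 i2 with r2 | r2 | r2
    · omega
    · exfalso
      obtain ⟨k1, -⟩ := nil _ _ _ i1 (by omega)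
      obtain ⟨k2, -⟩ := nil _ _ _ i2 (by omega)
      exact f12 (k1.trans k2.symm)
    · exfalso
      obtain ⟨k1, -⟩ := nil _ _ _ i1 (by omega)
      obtain ⟨k2, -⟩ := nil _ _ _ j2 (by omega)
      exact f31 (k2.symm.trans k1.symm)
  · rcases lobe_pos hF.s2 h2 e2 i2 with r2 | r2 | r2
    · omega
    · obtain ⟨k1, k3⟩ := nil _ _ _ j1 (by omega)
      obtain ⟨k2, k4⟩ := nil _ _ _ i2 (by omega)
      exact ⟨k3, k4⟩
    · exfalso
      obtain ⟨k1, -⟩ := nil _ _ _ j1 (by omega)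
      obtain ⟨k2, -⟩ := nil _ _ _ j2 (by omega)
      exact f23 (k1.symm.trans k2)

end Pool.Agent.ABA.B.H63
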