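import Pool.Agent.Helper63_ABB.Cy1
import Pool.Agent.Helper17_ABA.LobeDefs

/-!
# Case Y: pinch-freeness, existence of minimal polygons (module CY, MP_d857f1_al, part B)
-/

set_option autoImplicit false

namespace Pool.Agent.ABA.B.H63

open Knd Pool.Agent.ABA Pool.Agent.ABA.B Pool.Agent.ABA.B.TG Pool.Agent.ABA.B.H17
  Pool.Agent.ABA.B.H89 Pool.Agent.ABA.B.H50

variable {G : Type} [Group G] {A B : Subgroup G} {g : G}
variable {hg : ¬ IsABA A B g} {hgeo : Geo A B} {hι : Function.Injective (Pι A B g)}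
variable {F : Fy A B g} {L : ℕ}

theorem Fy.Poly.path (hF : F.Ok hg hgeo hι L) {γ1 s1 γ2 s2 γ3 s3 : List (XE A B g)}
    (h : F.Poly hg hgeo hι γ1 s1 γ2 s2 γ3 s3) :
    (XX hg hgeo hι).IsP F.p1 (F.word hg hgeo hι γ1 s1 γ2 s2 γ3 s3) F.p1 := by
  have h1 := h.l1.path
  have h2 := h.l2.path
  have h3 := h.l3.path
  rw [hF.h12] at h1
  rw [hF.h23] at h2
  rw [hF.h31] at h3
  exact isP_append.2 ⟨_, isP_append.2 ⟨_, h1, h2⟩, h3⟩

theorem cy_pf (hfix : FixStmt A B g) (hF : F.Ok hg hgeo hι L)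
    {γ1 s1 γ2 s2 γ3 s3 : List (XE A B g)} (hP : F.Poly hg hgeo hι γ1 s1 γ2 s2 γ3 s3)
    (hM : F.Mini hg hgeo hι γ1 s1 γ2 s2 γ3 s3) :
    (XX hg hgeo hι).PF (F.word hg hgeo hι γ1 s1 γ2 s2 γ3 s3) := by
  intro p₁ w₂ p₂ hw hw0 hw1 hcl
  by_contra hcon
  rw [not_lt] at hcon
  -- the vertex
  obtain ⟨n, hp1, hw2, hp2⟩ : ∃ n, (XX hg hgeo hι).IsP F.p1 p₁ n ∧ (XX hg hgeo hι).IsP n w₂ n ∧
      (XX hg hgeo hι).IsP n p₂ F.p1 := by
    have h1 := hP.path hF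
    rw [hw] at h1
    obtain ⟨n2, h2, h3⟩ := isP_append.1 h1
    obtain ⟨n1, h4, h5⟩ := isP_append.1 h2
    obtain ⟨r, h6⟩ := hcl
    obtain ⟨e, t, rfl⟩ := List.exists_cons_of_ne_nil hw0
    have h7 : n1 = r := h5.src_eq h6
    subst h7
    have h8 : n2 = n1 := h5.eq h6
    subst h8
    exact ⟨n2, h4, h6, h3⟩
  have P1 := hP.l1.path
  have P2 := hP.l2.path
  have P3 := hP.l3.path
  rw [hF.h12] at P1
  rw [hF.h23] at P2
  rw [hF.h31] at P3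
  have hA : (XX hg hgeo hι).ar (p₁ ++ p₂) ≤
      (XX hg hgeo hι).ar (F.word hg hgeo hι γ1 s1 γ2 s2 γ3 s3) := by omega
  have hw' := hw
  unfold Fy.word at hw
  simp only [List.append_assoc] at hw
  rcases seg_split hw P1 hp1 with ⟨u1, v1, e1, a1, e3, i1, i2⟩ | ⟨t1, a1, hw, i0⟩
  · rcases seg_split e3.symm i2 hw2 with ⟨u2, v2, g1, g2, g3, j1, j2⟩ | ⟨r1, m1, hx, j0⟩
    · -- both in the first lobe
      obtain ⟨s', k1, k2, k3⟩ := lobe_same hfix hF.s1 hF.n1 hP.l1 (e1.trans (by rw [g1])) i1 j1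
        (by rw [← g2]; exact hw0)
      have h1 : p₁ ++ p₂ = F.word hg hgeo hι γ1 s' γ2 s2 γ3 s3 := by
        unfold Fy.word
        rw [← k3, a1, g3]
        simp only [List.append_assoc]
      have h2 := (hM γ1 s' γ2 s2 γ3 s3 ⟨k1, hP.l2, hP.l3⟩).2 (by rw [← h1]; exact hA)
      omega
    rcases seg_split hx P2 j0 with ⟨u2, v2, g1, g2, g3, j1, j2⟩ | ⟨r2, m2, hx, j0⟩
    · -- first and second lobe
      obtain ⟨k1, k2⟩ := lobe_two hfix hF hP.l1 hP.l2 e1 i1 g1 j1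
      apply hw0
      rw [m1, k1, g2, k2]; rfl
    · -- first and third lobe
      have g1 : lobe hg hgeo hι F.x3 γ3 s3 = r2 ++ p₂ := hx
      obtain ⟨k1, k2⟩ := lobe_two hfix hF.cyc.cyc hP.l3 hP.l1 g1 j0 e1 i1
      apply hw1
      rw [a1, k2, k1]; rfl
  rcases seg_split hw P2 i0 with ⟨u1, v1, e1, a2, e3, i1, i2⟩ | ⟨t2, a2, hw, i0⟩
  · rcases seg_split e3.symm i2 hw2 with ⟨u2, v2, g1, g2, g3, j1, j2⟩ | ⟨r1, m1, hx, j0⟩
    · obtain ⟨s', k1, k2, k3⟩ := lobe_same hfix hF.s2 hF.n2 hP.l2 (e1.trans (by rw [g1])) i1 j1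
        (by rw [← g2]; exact hw0)
      have h1 : p₁ ++ p₂ = F.word hg hgeo hι γ1 s1 γ2 s' γ3 s3 := by
        unfold Fy.word
        rw [← k3, a1, a2, g3]
        simp only [List.append_assoc]
      have h2 := (hM γ1 s1 γ2 s' γ3 s3 ⟨hP.l1, k1, hP.l3⟩).2 (by rw [← h1]; exact hA)
      omega
    · have g1 : lobe hg hgeo hι F.x3 γ3 s3 = r1 ++ p₂ := hx
      obtain ⟨k1, k2⟩ := lobe_two hfix hF.cyc hP.l2 hP.l3 e1 i1 g1 j0
      apply hw0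
      rw [m1, k1, k2]; rfl
  · -- both in the third lobe
    obtain ⟨s', k1, k2, k3⟩ := lobe_same hfix hF.s3 hF.n3 hP.l3 hw i0 hw2 hw0
    have h1 : p₁ ++ p₂ = F.word hg hgeo hι γ1 s1 γ2 s2 γ3 s' := by
      unfold Fy.word
      rw [← k3, a1, a2]
      simp only [List.append_assoc]
    have h2 := (hM γ1 s1 γ2 s2 γ3 s' ⟨hP.l1, hP.l2, k1⟩).2 (by rw [← h1]; exact hA)
    omega

/-! ## existence -/

theorem exists_lobe' (hfix : FixStmt A B g) {c : Car A B g} {z : PP A B g} (hz : z • c = c)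
    (hz1 : z ≠ 1) (p : XV A B g) :
    ∃ γ s, IsLobe hg hgeo hι c z p (dVC hg hgeo hι p c) γ s := by
  obtain ⟨y, γ, hy, h2, h3⟩ := exists_slit (hg := hg) (hgeo := hgeo) (hι := hι) p c
  have hy' : On c (z • y) := by
    have := hy.smul z
    rwa [hz] at this
  by_cases hr : Rot z
  · exact ⟨γ, [], h3, ⟨y, hy, h2, (((hfix c z hz1 hz).1 hr y).2 hy).symm, by simp⟩, fun _ => rfl⟩
  · obtain ⟨s, hs⟩ := car_conn hg hgeo hι hy hy'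
    exact ⟨γ, s, h3, ⟨y, hy, h2, hs⟩, fun h => absurd h hr⟩

/-- tuple of polygon data -/
structure PT {G : Type} [Group G] (A B : Subgroup G) (g : G) where
  γ1 : List (XE A B g)
  s1 : List (XE A B g)
  γ2 : List (XE A B g)
  s2 : List (XE A B g)
  γ3 : List (XE A B g)
  s3 : List (XE A B g)

theorem exists_mini (hfix : FixStmt A B g) (hF : F.Ok hg hgeo hι L) :
    ∃ γ1 s1 γ2 s2 γ3 s3, F.Poly hg hgeo hι γ1 s1 γ2 s2 γ3 s3 ∧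
      F.Mini hg hgeo hι γ1 s1 γ2 s2 γ3 s3 := by
  obtain ⟨γ1, s1, h1⟩ := exists_lobe' (hg := hg) (hgeo := hgeo) (hι := hι) hfix hF.s1 hF.n1 F.p1
  obtain ⟨γ2, s2, h2⟩ := exists_lobe' (hg := hg) (hgeo := hgeo) (hι := hι) hfix hF.s2 hF.n2 F.p2
  obtain ⟨γ3, s3, h3⟩ := exists_lobe' (hg := hg) (hgeo := hgeo) (hι := hι) hfix hF.s3 hF.n3 F.p3
  have key := lex_min (A := PT A B g)
    (fun t => F.Poly hg hgeo hι t.γ1 t.s1 t.γ2 t.s2 t.γ3 t.s3)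
    (fun t => (XX hg hgeo hι).ar (F.word hg hgeo hι t.γ1 t.s1 t.γ2 t.s2 t.γ3 t.s3))
    (fun t => t.s1.length + t.s2.length + t.s3.length)
    ⟨⟨γ1, s1, γ2, s2, γ3, s3⟩, h1, h2, h3⟩
  obtain ⟨t, ht, hmin⟩ := key
  exact ⟨t.γ1, t.s1, t.γ2, t.s2, t.γ3, t.s3, ht, fun a1 b1 a2 b2 a3 b3 h =>
    hmin ⟨a1, b1, a2, b2, a3, b3⟩ h⟩

/-! ## the lobes are minimal -/

theorem lobeMin1 (hF : F.Ok hg hgeo hι L)
    {γ1 s1 γ2 s2 γ3 s3 : List (XE A B g)} (hP : F.Poly hg hgeo hι γ1 s1 γ2 s2 γ3 s3)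
    (hM : F.Mini hg hgeo hι γ1 s1 γ2 s2 γ3 s3) :
    LobeMin hg hgeo hι F.D1 F.x1 F.p1 (dVC hg hgeo hι F.p1 F.D1) [] γ1 s1
      (lobe hg hgeo hι F.x2 γ2 s2 ++ lobe hg hgeo hι F.x3 γ3 s3) where
  lob := hP.l1
  dist := le_refl _
  stab := hF.s1
  ne := hF.n1
  min := by
    intro γ' s' h
    have h1 := hM γ' s' γ2 s2 γ3 s3 ⟨h, hP.l2, hP.l3⟩
    unfold Fy.word at h1
    simp only [List.append_assoc] at h1
    simp only [List.nil_append]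
    exact ⟨h1.1, fun h2 => by have := h1.2 h2; omega⟩

theorem lobeMin2 (hF : F.Ok hg hgeo hι L)
    {γ1 s1 γ2 s2 γ3 s3 : List (XE A B g)} (hP : F.Poly hg hgeo hι γ1 s1 γ2 s2 γ3 s3)
    (hM : F.Mini hg hgeo hι γ1 s1 γ2 s2 γ3 s3) :
    LobeMin hg hgeo hι F.D2 F.x2 F.p2 (dVC hg hgeo hι F.p2 F.D2) (lobe hg hgeo hι F.x1 γ1 s1)
      γ2 s2 (lobe hg hgeo hι F.x3 γ3 s3) where
  lob := hP.l2
  dist := le_refl _
  stab := hF.s2
  ne := hF.n2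
  min := by
    intro γ' s' h
    have h1 := hM γ1 s1 γ' s' γ3 s3 ⟨hP.l1, h, hP.l3⟩
    unfold Fy.word at h1
    exact ⟨h1.1, fun h2 => by have := h1.2 h2; omega⟩

theorem lobeMin3 (hF : F.Ok hg hgeo hι L)
    {γ1 s1 γ2 s2 γ3 s3 : List (XE A B g)} (hP : F.Poly hg hgeo hι γ1 s1 γ2 s2 γ3 s3)
    (hM : F.Mini hg hgeo hι γ1 s1 γ2 s2 γ3 s3) :
    LobeMin hg hgeo hι F.D3 F.x3 F.p3 (dVC hg hgeo hι F.p3 F.D3)
      (lobe hg hgeo hι F.x1 γ1 s1 ++ lobe hg hgeo hι F.x2 γ2 s2) γ3 s3 [] where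
  lob := hP.l3
  dist := le_refl _
  stab := hF.s3
  ne := hF.n3
  min := by
    intro γ' s' h
    have h1 := hM γ1 s1 γ2 s2 γ' s' ⟨hP.l1, hP.l2, h⟩
    unfold Fy.word at h1
    simp only [List.append_nil]
    exact ⟨h1.1, fun h2 => by have := h1.2 h2; omega⟩

end Pool.Agent.ABA.B.H63
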