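import Pool.Agent.Helper63_ABB.Cy2
import Pool.Agent.Helper17_ABA.Lobe2
import Pool.Agent.Helper70_ABA.Lobe70

/-!
# Case Y: the count (module CY, MP_d857f1_al, part B)
-/

set_option autoImplicit false

namespace Pool.Agent.ABA.B.H63

open Knd Pool.Agent.ABA Pool.Agent.ABA.B Pool.Agent.ABA.B.TG Pool.Agent.ABA.B.H17
  Pool.Agent.ABA.B.H89 Pool.Agent.ABA.B.H50 Pool.Agent.ABA.B.H49 Pool.Agent.ABA.B.H70L

variable {G : Type} [Group G] {A B : Subgroup G} {g : G}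

/-! ## the frame of a triple -/

/-- the frame of a triple and a vertex -/
def ofTY (T : Trp A B g) (m : XV A B g) : Fy A B g :=
  ⟨T.c1, T.z1 • T.c2, T.c3, T.z1, T.z1 * T.z2 * T.z1⁻¹, T.z3, m, T.z1 • m, T.z3⁻¹ • m⟩

section

variable (hg : ¬ IsABA A B g) (hgeo : Geo A B) (hι : Function.Injective (Pι A B g))

/-- the class of a frame -/
def KlsY (F : Fy A B g) : Prop :=
  (IsPl F.D1 ∧ IsPl F.D2 ∧ IsPl F.D3 ∧
    ((¬ Rot F.x1 ∧ ¬ Rot F.x2) ∨ (¬ Rot F.x2 ∧ ¬ Rot F.x3) ∨ (¬ Rot F.x1 ∧ ¬ Rot F.x3))) ∨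
  (((IsLn F.D1 ∧ IsPl F.D2 ∧ IsPl F.D3) ∨ (IsPl F.D1 ∧ IsLn F.D2 ∧ IsPl F.D3) ∨
    (IsPl F.D1 ∧ IsPl F.D2 ∧ IsLn F.D3)) ∧ ¬ Rot F.x1 ∧ ¬ Rot F.x2 ∧ ¬ Rot F.x3 ∧
    NTwo hg hgeo hι F.D1 F.x1 ∧ NTwo hg hgeo hι F.D2 F.x2 ∧ NTwo hg hgeo hι F.D3 F.x3)

end

variable {hg : ¬ IsABA A B g} {hgeo : Geo A B} {hι : Function.Injective (Pι A B g)}
variable {F : Fy A B g} {L : ℕ}

theorem ok_ofTY {K : Trp A B g → Prop} (hK : Trp.Cls K) (hL : Trp.Low hg hgeo hι K L)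
    {T : Trp A B g} {m : XV A B g} (hT : K T) (hY : T.LY hg hgeo hι m = L)
    (hV : ∀ T', K T' → L < T'.LV hg hgeo hι) : (ofTY T m).Ok hg hgeo hι L := by
  have h0 := hK.ok T hT
  have hI := hur_stmt (hg := hg) (hgeo := hgeo) (hι := hι) K L hK hL T hT
  have hI2 := hur_stmt (hg := hg) (hgeo := hgeo) (hι := hι) K L hK hL _ (hK.cyc _ hT)
  have e3 : T.z3⁻¹ = T.z1 * T.z2 := by
    rw [inv_eq_iff_mul_eq_one.2]
    have := mul3_cyc (mul3_cyc h0.mul)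
    rwa [← mul_assoc]
  have d2 : dVC hg hgeo hι (T.z1 • m) (T.z1 • T.c2) = dVC hg hgeo hι m T.c2 := dVC_smul _ _ _
  have d3 : dVC hg hgeo hι (T.z3⁻¹ • m) T.c3 = dVC hg hgeo hι m T.c3 :=
    dVC_stab (stab_inv h0.s3) m
  have hY' : dVC hg hgeo hι m T.c1 + dVC hg hgeo hι m T.c2 + dVC hg hgeo hι m T.c3 = L := hY
  have v1 := hV _ (hK.cyc _ hT)
  have v2 := hV _ (hK.cyc _ (hK.cyc _ hT))
  have v3 := hV _ hT
  have v1' : L < dCC hg hgeo hι T.c2 T.c1 + dCC hg hgeo hι T.c3 T.c1 := v1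
  have v2' : L < dCC hg hgeo hι T.c3 T.c2 + dCC hg hgeo hι T.c1 T.c2 := v2
  have v3' : L < dCC hg hgeo hι T.c1 T.c3 + dCC hg hgeo hι T.c2 T.c3 := v3
  refine ⟨?_, h0.s1, stab_conj h0.s2, h0.s3, h0.n1, conj_ne_one h0.n2, h0.n3, rfl, ?_, ?_, ?_, ?_,
    ?_, ?_, ?_, ?_, ?_, ?_, ?_, ?_, ?_⟩
  · change T.z3 * (T.z1 * T.z2 * T.z1⁻¹) * T.z1 = 1
    have h1 := mul3_cyc (mul3_cyc h0.mul)
    rw [← h1]; group
  · change (T.z1 * T.z2 * T.z1⁻¹) • T.z1 • m = T.z3⁻¹ • m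
    rw [smul_smul, inv_mul_cancel_right, e3]
  · change T.z3 • T.z3⁻¹ • m = m
    rw [smul_inv_smul]
  · change 1 ≤ dVC hg hgeo hι m T.c1
    by_contra hcon
    have h1 : On T.c1 m := dVC_eq_zero.1 (by omega : dVC hg hgeo hι m T.c1 = 0)
    have h2 := dCC_le_dVC (hg := hg) (hgeo := hgeo) (hι := hι) (c' := T.c2) h1
    have h3 := dCC_le_dVC (hg := hg) (hgeo := hgeo) (hι := hι) (c' := T.c3) h1
    rw [dCC_comm] at h2 h3
    omega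
  · change 1 ≤ dVC hg hgeo hι (T.z1 • m) (T.z1 • T.c2)
    rw [d2]
    by_contra hcon
    have h1 : On T.c2 m := dVC_eq_zero.1 (by omega : dVC hg hgeo hι m T.c2 = 0)
    have h2 := dCC_le_dVC (hg := hg) (hgeo := hgeo) (hι := hι) (c' := T.c1) h1
    have h3 := dCC_le_dVC (hg := hg) (hgeo := hgeo) (hι := hι) (c' := T.c3) h1
    rw [dCC_comm] at h2 h3
    omega
  · change 1 ≤ dVC hg hgeo hι (T.z3⁻¹ • m) T.c3
    rw [d3]
    by_contra hcon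
    have h1 : On T.c3 m := dVC_eq_zero.1 (by omega : dVC hg hgeo hι m T.c3 = 0)
    have h2 := dCC_le_dVC (hg := hg) (hgeo := hgeo) (hι := hι) (c' := T.c1) h1
    have h3 := dCC_le_dVC (hg := hg) (hgeo := hgeo) (hι := hι) (c' := T.c2) h1
    rw [dCC_comm] at h2 h3
    omega
  · change dVC hg hgeo hι m T.c1 + dVC hg hgeo hι (T.z1 • m) (T.z1 • T.c2) +
      dVC hg hgeo hι (T.z3⁻¹ • m) T.c3 = L
    rw [d2, d3]; exact hY'
  · exact hI.y1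
  · exact hI.y2
  · intro n
    have h1 : L ≤ dVC hg hgeo hι (T.z1⁻¹ • n) T.c2 + dVC hg hgeo hι (T.z1⁻¹ • n) (T.z2 • T.c3) +
      dVC hg hgeo hι (T.z1⁻¹ • n) (T.z2 • T.c1) := hI2.y2 (T.z1⁻¹ • n)
    rw [← dVC_smul (hg := hg) (hgeo := hgeo) (hι := hι) T.z1 (T.z1⁻¹ • n) T.c2,
      ← dVC_smul (hg := hg) (hgeo := hgeo) (hι := hι) T.z1 (T.z1⁻¹ • n) (T.z2 • T.c3),
      ← dVC_smul (hg := hg) (hgeo := hgeo) (hι := hι) T.z1 (T.z1⁻¹ • n) (T.z2 • T.c1),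
      smul_inv_smul, smul_smul, smul_smul, ← e3, stab_inv h0.s3] at h1
    change L ≤ dVC hg hgeo hι n (T.z1 • T.c2) + dVC hg hgeo hι n T.c3 +
      dVC hg hgeo hι n ((T.z1 * T.z2 * T.z1⁻¹) • T.c1)
    have h2 : (T.z1 * T.z2 * T.z1⁻¹) • T.c1 = T.z3⁻¹ • T.c1 := by
      rw [mul_smul, stab_inv h0.s1, e3]
    rw [h2]; exact h1
  · intro n
    change L ≤ dVC hg hgeo hι n T.c3 + dVC hg hgeo hι n T.c1 +
      dVC hg hgeo hι n (T.z3 • T.z1 • T.c2)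
    have h1 : T.z3 • T.z1 • T.c2 = T.c2 := by
      rw [smul_smul]
      have h2 : T.z3 * T.z1 = T.z2⁻¹ := mul_eq_one_iff_eq_inv.1 (mul3_cyc (mul3_cyc h0.mul))
      rw [h2, stab_inv h0.s2]
    rw [h1]
    have h3 := (hL T hT).1 n
    rw [Trp.LY] at h3
    omega
  · exact hI.hub1
  · have h1 : L ≤ dCC hg hgeo hι T.c2 (T.z2 • T.c3) + dCC hg hgeo hι T.c2 T.c1 := hI2.hub1
    rw [← dCC_smul (hg := hg) (hgeo := hgeo) (hι := hι) T.z1 T.c2 (T.z2 • T.c3),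
      ← dCC_smul (hg := hg) (hgeo := hgeo) (hι := hι) T.z1 T.c2 T.c1, smul_smul, ← e3,
      stab_inv h0.s3, h0.s1] at h1
    exact h1
  · change L ≤ dCC hg hgeo hι T.c3 T.c1 + dCC hg hgeo hι T.c3 (T.z1 • T.c2)
    have h1 := hI.e2
    rw [dCC_comm T.c3 (T.z1 • T.c2), h1, dCC_comm T.c3 T.c1]
    exact v3'.le

theorem kls_ofTY {T : Trp A B g} {m : XV A B g} (hT : T.Rt ∨ T.Lt hg hgeo hι) :
    KlsY hg hgeo hι (ofTY T m) := by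
  rcases hT with h1 | h1
  · obtain ⟨-, p1, p2, p3, h2⟩ := h1
    left
    refine ⟨p1, p2.smul _, p3, ?_⟩
    change (¬ Rot T.z1 ∧ ¬ Rot (T.z1 * T.z2 * T.z1⁻¹)) ∨
      (¬ Rot (T.z1 * T.z2 * T.z1⁻¹) ∧ ¬ Rot T.z3) ∨ (¬ Rot T.z1 ∧ ¬ Rot T.z3)
    rw [Rot_conj]
    exact h2
  · obtain ⟨-, h2, r1, r2, r3, n1, n2, n3⟩ := h1
    right
    refine ⟨?_, r1, ?_, r3, n1, n2.conj _, n3⟩
    · rcases h2 with ⟨a, b, c⟩ | ⟨a, b, c⟩ | ⟨a, b, c⟩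
      · exact Or.inl ⟨a, b.smul _, c⟩
      · exact Or.inr (Or.inl ⟨a, b.smul _, c⟩)
      · exact Or.inr (Or.inr ⟨a, b.smul _, c⟩)
    · change ¬ Rot (T.z1 * T.z2 * T.z1⁻¹)
      rw [Rot_conj]
      exact r2

/-! ## first letters -/

/-- the first letter of a slit -/
theorem lobe_first {D : Car A B g} {z : PP A B g} {p : XV A B g} {γ s : List (XE A B g)}
    (hL : IsLobe hg hgeo hι D z p (dVC hg hgeo hι p D) γ s) (h1 : 1 ≤ dVC hg hgeo hι p D) :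
    ∃ e r, γ = e :: r ∧ lobe hg hgeo hι z γ s =
      e :: (r ++ s ++ ((XX hg hgeo hι).rv r).map (actE z)) ++ [actE z (xinv e)] ∧
      xsrc e = p ∧ dVC hg hgeo hι (xsrc (xinv e)) D + 1 ≤ dVC hg hgeo hι p D := by
  obtain ⟨y, hy, hγ, hs⟩ := hL.mid
  have hl := hL.len
  obtain ⟨e, r, rfl⟩ : ∃ e r, γ = e :: r := by
    cases γ with
    | nil => simp at hl; omega
    | cons e r => exact ⟨e, r, rfl⟩
  refine ⟨e, r, rfl, ?_, hγ.1, ?_⟩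
  · unfold lobe
    rw [rv_cons, List.map_append]
    simp only [List.cons_append, List.append_assoc]
    rfl
  · have := dVC_path (hg := hg) (hgeo := hgeo) (hι := hι) hy hγ.2
    simp only [List.length_cons] at hl
    change dVC hg hgeo hι (xsrc (xinv e)) D ≤ r.length at this
    omega

/-- the first letters of different lobes are different -/
theorem first_ne (hfix : FixStmt A B g) (hF : F.Ok hg hgeo hι L)
    {s1 s2 r1 r2 : List (XE A B g)} {e1 e2 : XE A B g}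
    (h1 : IsLobe hg hgeo hι F.D1 F.x1 F.p1 (dVC hg hgeo hι F.p1 F.D1) (e1 :: r1) s1)
    (h2 : IsLobe hg hgeo hι F.D2 F.x2 F.p2 (dVC hg hgeo hι F.p2 F.D2) (e2 :: r2) s2) :
    actE F.x1 e1 ≠ e2 := by
  intro he
  obtain ⟨e, r, k1, k2, k3, k4⟩ := lobe_first h1 hF.q1
  simp only [List.cons.injEq] at k1
  obtain ⟨rfl, rfl⟩ := k1
  have h5 := h1.path
  rw [k2] at h5
  obtain ⟨n, i1, i2⟩ := isP_append.1 h5
  have hn : n = xsrc (actE F.x1 (xinv e1)) := i2.1.symm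
  have h6 : (XX hg hgeo hι).IsP F.p2 [e2] n := by
    refine ⟨?_, ?_⟩
    · rw [← he]
      change xsrc (actE F.x1 e1) = F.p2
      rw [xsrc_act, k3, hF.h12]
    · rw [hn, ← he]
      change xsrc (xinv (actE F.x1 e1)) = _
      rw [xinv_act]
  have h7 : lobe hg hgeo hι F.x2 (e2 :: r2) s2 =
      [e2] ++ (r2 ++ s2 ++ ((XX hg hgeo hι).rv (e2 :: r2)).map (actE F.x2)) := by
    unfold lobe
    simp
  have h8 := (lobe_two hfix hF h1 h2 k2 i1 h7 h6).1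
  simp at h8

end Pool.Agent.ABA.B.H63
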